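import Mathlib
import Pool.Agent.H50.G.B.R301.GM.Det
import Pool.Agent.H50.G.B.R529.BU.Lim
set_option autoImplicit false
set_option linter.unusedSectionVars false

/-! # Irregularities of the sieve in intervals of length a power of the logarithm -/

open Finset Filter
open scoped Topology

namespace Pool.Agent.R301.GM

open Pool.Agent.R528.RM
open Pool.Agent.R529.BU (om WW QA)

/-- the number of integers up to `(L + c) ^ (t u)` without prime factors up to `L ^ t` -/
theorem rho {t u c : ℝ} (ht : 0 < t) (hu : 1 < u) :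
    Tendsto (fun L : ℝ => ((Pool.Agent.R529.BU.RR ((L + c) ^ (t * u)) (⌊L ^ t⌋₊ : ℝ)).card : ℝ) *
      MM ⌊L ^ t⌋₊ / L ^ (t * u)) atTop (𝓝 (Real.exp Real.eulerMascheroniConstant * om u)) := by
  have hu0 : 0 < u := by linarith
  have htu : 0 < t * u := by positivity
  have hv : Tendsto (fun L : ℝ => ⌊L ^ t⌋₊) atTop atTop :=
    tendsto_nat_floor_atTop.comp (tendsto_rpow_atTop ht)
  have hlog : Tendsto Real.log atTop atTop := Real.tendsto_log_atTop
  have hLc : Tendsto (fun L : ℝ => L + c) atTop atTop := tendsto_atTop_add_const_right _ _ tendsto_id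
  have hlv : Tendsto (fun L : ℝ => Real.log (⌊L ^ t⌋₊ : ℝ)) atTop atTop :=
    hlog.comp (tendsto_natCast_atTop_atTop.comp hv)
  -- `log v / log L → t`
  have f2 : Tendsto (fun L : ℝ => Real.log (⌊L ^ t⌋₊ : ℝ) / Real.log L) atTop (𝓝 t) := by
    have h1 : Tendsto (fun L : ℝ => (⌊L ^ t⌋₊ : ℝ) / L ^ t) atTop (𝓝 1) :=
      (tendsto_nat_floor_div_atTop (R := ℝ)).comp (tendsto_rpow_atTop ht)
    have h2 := (h1.log one_ne_zero).mul (hlog.inv_tendsto_atTop)
    rw [mul_zero] at h2
    have h3 := h2.const_add t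
    rw [add_zero] at h3
    refine h3.congr' ?_
    filter_upwards [eventually_gt_atTop 1, hv.eventually_gt_atTop 0] with L hL hvL
    have h4 : (0 : ℝ) < ⌊L ^ t⌋₊ := by exact_mod_cast hvL
    have h5 : 0 < Real.log L := Real.log_pos hL
    rw [Real.log_div h4.ne' (Real.rpow_pos_of_pos (by linarith) _).ne', Real.log_rpow (by linarith)]
    simp only [Pi.inv_apply]
    field_simp
    ring
  -- `log y / log L → t u`
  have f3 : Tendsto (fun L : ℝ => Real.log ((L + c) ^ (t * u)) / Real.log L) atTop (𝓝 (t * u)) := by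
    have h2 := (Real.tendsto_log_comp_add_sub_log c).mul (hlog.inv_tendsto_atTop)
    rw [mul_zero] at h2
    have h3 := (h2.const_add 1).const_mul (t * u)
    rw [add_zero, mul_one] at h3
    refine h3.congr' ?_
    filter_upwards [eventually_gt_atTop 1, hLc.eventually_gt_atTop 0] with L hL hLc
    have h5 : 0 < Real.log L := Real.log_pos hL
    rw [Real.log_rpow hLc]
    simp only [Pi.inv_apply]
    field_simp
    ring
  have f4 : Tendsto (fun L : ℝ => Real.log ((L + c) ^ (t * u)) / Real.log (⌊L ^ t⌋₊ : ℝ)) atTop (𝓝 u) := by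
    have h1 := f3.div f2 ht.ne'
    rw [mul_div_cancel_left₀ u ht.ne'] at h1
    refine h1.congr' ?_
    filter_upwards [eventually_gt_atTop 1, hlv.eventually_gt_atTop 0] with L hL hvL
    have h5 : 0 < Real.log L := Real.log_pos hL
    simp only [Pi.div_apply]
    field_simp
  have f5 : Tendsto (fun L : ℝ => (L + c) ^ (t * u) / L ^ (t * u)) atTop (𝓝 1) := by
    have h1 : Tendsto (fun L : ℝ => 1 + c * L⁻¹) atTop (𝓝 (1 + c * 0)) :=
      (tendsto_inv_atTop_zero.const_mul c).const_add 1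
    rw [mul_zero, add_zero] at h1
    have h2 := h1.rpow_const (p := t * u) (Or.inl one_ne_zero)
    rw [Real.one_rpow] at h2
    refine h2.congr' ?_
    filter_upwards [eventually_gt_atTop 0, hLc.eventually_gt_atTop 0] with L hL hLc
    rw [← Real.div_rpow hLc.le hL.le]
    congr 1
    field_simp
  have f7 : Tendsto (fun L : ℝ => MM ⌊L ^ t⌋₊ / Real.log (⌊L ^ t⌋₊ : ℝ)) atTop
      (𝓝 (Real.exp Real.eulerMascheroniConstant)) := MM_lim.comp hv
  -- Buchstab's function
  have f8 : Tendsto (fun L : ℝ => ((Pool.Agent.R529.BU.RR ((L + c) ^ (t * u)) (⌊L ^ t⌋₊ : ℝ)).card : ℝ) *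
      Real.log ((L + c) ^ (t * u)) / (L + c) ^ (t * u)) atTop (𝓝 (u * om u)) := by
    have g1 : Tendsto (fun L : ℝ => WW (Real.log ((L + c) ^ (t * u)) / Real.log (⌊L ^ t⌋₊ : ℝ))) atTop (𝓝 (WW u)) :=
      (Pool.Agent.R529.BU.WW_cont.tendsto u).comp f4
    have g2 : Tendsto (fun L : ℝ => ((Pool.Agent.R529.BU.RR ((L + c) ^ (t * u)) (⌊L ^ t⌋₊ : ℝ)).card : ℝ) *
      Real.log ((L + c) ^ (t * u)) / (L + c) ^ (t * u) -
        WW (Real.log ((L + c) ^ (t * u)) / Real.log (⌊L ^ t⌋₊ : ℝ))) atTop (𝓝 0) := by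
      rw [Metric.tendsto_nhds]
      intro ε hε
      obtain ⟨n, hn⟩ := exists_nat_gt (max u 2)
      have hn2 : (2 : ℝ) < n := (le_max_right _ _).trans_lt hn
      have hnu : u < n := (le_max_left _ _).trans_lt hn
      obtain ⟨z0, hz0⟩ := Pool.Agent.R529.BU.QA_all n (by exact_mod_cast hn2.le) ((u - 1) / 2) (ε / 2)
        (by linarith) (by positivity)
      filter_upwards [(tendsto_natCast_atTop_atTop.comp hv).eventually_ge_atTop z0,
        f4.eventually (gt_mem_nhds hnu), f4.eventually (lt_mem_nhds (show 1 + (u - 1) / 2 < u by linarith)),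
        hlv.eventually_gt_atTop 0, hv.eventually_gt_atTop 0, hLc.eventually_gt_atTop 0] with L e1 e2 e3 e4 e5 e6
      obtain ⟨v, hvd⟩ : ∃ v : ℝ, v = (⌊L ^ t⌋₊ : ℝ) := ⟨_, rfl⟩
      obtain ⟨y, hyd⟩ : ∃ y : ℝ, y = (L + c) ^ (t * u) := ⟨_, rfl⟩
      have e1' : z0 ≤ v := by rw [hvd]; exact e1
      have hv0 : 0 < v := by rw [hvd]; exact_mod_cast e5
      have hy0 : 0 < y := by rw [hyd]; exact Real.rpow_pos_of_pos e6 _
      rw [← hvd] at e2 e3 e4 ⊢
      rw [← hyd] at e2 e3 ⊢
      rw [div_lt_iff₀ e4] at e2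
      rw [lt_div_iff₀ e4] at e3
      have h1 := hz0 v e1' y (by
        rw [← Real.log_le_log_iff (Real.rpow_pos_of_pos hv0 _) hy0, Real.log_rpow hv0]
        exact e3.le) (by
        rw [← Real.log_le_log_iff hy0 (Real.rpow_pos_of_pos hv0 _), Real.log_rpow hv0]
        exact e2.le)
      rw [Real.dist_eq, sub_zero]
      have h2 : ((Pool.Agent.R529.BU.RR y v).card : ℝ) * Real.log y / y - WW (Real.log y / Real.log v) =
          (((Pool.Agent.R529.BU.RR y v).card : ℝ) * Real.log y - y * WW (Real.log y / Real.log v)) / y := by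
        field_simp
      rw [h2, abs_div, abs_of_pos hy0, div_lt_iff₀ hy0]
      refine h1.trans_lt ?_
      nlinarith
    have g3 := g2.add g1
    rw [zero_add] at g3
    refine g3.congr fun L => ?_
    ring
  have f9 := ((f8.mul f5).mul f7).mul (f4.inv₀ hu0.ne')
  have e : u * om u * 1 * Real.exp Real.eulerMascheroniConstant * u⁻¹ =
      Real.exp Real.eulerMascheroniConstant * om u := by
    field_simp
  rw [e] at f9
  refine f9.congr' ?_
  filter_upwards [eventually_gt_atTop 1, hlv.eventually_gt_atTop 0, hLc.eventually_gt_atTop 1] with L hL hvL hLc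
  have h1 : 0 < (L + c) ^ (t * u) := Real.rpow_pos_of_pos (by linarith) _
  have h2 : 0 < L ^ (t * u) := Real.rpow_pos_of_pos (by linarith) _
  have h3 : 0 < Real.log ((L + c) ^ (t * u)) := Real.log_pos (Real.one_lt_rpow hLc htu)
  field_simp

lemma free_period {v x j : ℕ} (h : primorial v ∣ x) : Free v (x + j) ↔ Free v j := by
  have key : ∀ p, p.Prime → p ≤ v → (p ∣ x + j ↔ p ∣ j) := by
    intro p hp hpv
    have h1 : p ∣ x := by
      refine dvd_trans ?_ h
      unfold primorial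
      exact Finset.dvd_prod_of_mem _ (by rw [mem_filter, mem_range]; exact ⟨by omega, hp⟩)
    exact (Nat.dvd_add_iff_right h1).symm
  constructor
  · intro hf p hp hd
    by_contra hcon
    push Not at hcon
    exact absurd (hf p hp ((key p hp hcon).2 hd)) (not_lt.2 hcon)
  · intro hf p hp hd
    by_contra hcon
    push Not at hcon
    exact absurd (hf p hp ((key p hp hcon).1 hd)) (not_lt.2 hcon)

lemma rc_period {v x : ℕ} (h : primorial v ∣ x) (y : ℝ) :
    rc v x ⌊y⌋₊ = (Pool.Agent.R529.BU.RR y (v : ℝ)).card := by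
  classical
  unfold rc
  refine card_bij (fun k _ => k + 1) ?_ ?_ ?_
  · intro k hk
    rw [mem_filter, mem_range] at hk
    rw [Pool.Agent.R529.BU.mem_RR]
    refine ⟨⟨by omega, by omega⟩, fun p hp hd => ?_⟩
    have h1 := hk.2
    rw [add_assoc, free_period h] at h1
    exact_mod_cast h1 p hp hd
  · intro k _ k' _ h
    omega
  · intro m hm
    rw [Pool.Agent.R529.BU.mem_RR] at hm
    refine ⟨m - 1, ?_, by omega⟩
    rw [mem_filter, mem_range]
    refine ⟨by omega, ?_⟩
    rw [add_assoc, free_period h, show m - 1 + 1 = m by omega]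
    intro p hp hd
    exact_mod_cast hm.2 p hp hd

lemma rc_mono {w n U U' : ℕ} (h : U ≤ U') : rc w n U ≤ rc w n U' := by
  classical
  unfold rc
  exact card_le_card (filter_subset_filter _ (range_mono h))

lemma rc_anti {w w' n U : ℕ} (h : w ≤ w') : rc w' n U ≤ rc w n U := by
  classical
  unfold rc
  apply card_le_card
  intro k hk
  rw [mem_filter] at hk ⊢
  exact ⟨hk.1, hk.2.anti h⟩

/-- the modulus is small -/
lemma prim_small {t κ : ℝ} (ht : t < 1) (hκ : 0 < κ) : ∀ᶠ L : ℝ in atTop,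
    (primorial ⌊L ^ t⌋₊ : ℝ) ≤ Real.exp (κ * L) := by
  have hl4 : 0 < Real.log 4 := Real.log_pos (by norm_num)
  have h0 : ∀ᶠ L : ℝ in atTop, Real.log 4 / κ ≤ L ^ (1 - t) :=
    (tendsto_rpow_atTop (show 0 < 1 - t by linarith)).eventually_ge_atTop _
  filter_upwards [h0, eventually_gt_atTop 0] with L h0 h2
  have h1 : L ^ t ≤ κ / Real.log 4 * L := by
    have e : L = L ^ t * L ^ (1 - t) := by
      rw [← Real.rpow_add h2]
      norm_num
    rw [div_le_iff₀ hκ] at h0
    have h5 : 0 < L ^ t := Real.rpow_pos_of_pos h2 _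
    rw [div_mul_eq_mul_div, le_div_iff₀ hl4]
    calc L ^ t * Real.log 4 ≤ L ^ t * (L ^ (1 - t) * κ) := mul_le_mul_of_nonneg_left h0 h5.le
      _ = κ * (L ^ t * L ^ (1 - t)) := by ring
      _ = κ * L := by rw [← e]
  have h3 : (primorial ⌊L ^ t⌋₊ : ℝ) ≤ (4 : ℝ) ^ ⌊L ^ t⌋₊ := by exact_mod_cast primorial_le_four_pow _
  refine h3.trans ?_
  rw [← Real.rpow_natCast, Real.rpow_def_of_pos (by norm_num)]
  apply Real.exp_le_exp.2
  have h4 : (⌊L ^ t⌋₊ : ℝ) ≤ L ^ t := Nat.floor_le (Real.rpow_nonneg h2.le _)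
  calc Real.log 4 * (⌊L ^ t⌋₊ : ℝ) ≤ Real.log 4 * (κ / Real.log 4 * L) :=
        mul_le_mul_of_nonneg_left (h4.trans h1) hl4.le
    _ = κ * L := by field_simp

end Pool.Agent.R301.GM
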