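import Mathlib
import Pool.Agent.H50.G.B.R301.GM.Irr
set_option autoImplicit false
set_option linter.unusedSectionVars false

/-! # Irregularities of the sieve: intervals with few and with many survivors -/

open Finset Filter
open scoped Topology

namespace Pool.Agent.R301.GM

open Pool.Agent.R528.RM
open Pool.Agent.R529.BU (om)

/-- notation: Euler's constant factor -/
noncomputable def eg : ℝ := Real.exp Real.eulerMascheroniConstant

lemma eg_pos : 0 < eg := Real.exp_pos _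

/-- the ratio of the products at the levels `z n` and `(log n) ^ t` -/
theorem MM_ratio {z : ℕ → ℕ} {θ t : ℝ} (hθ : 0 < θ) (ht : 0 < t)
    (hz : Tendsto (fun n : ℕ => Real.log (z n) / Real.log (Real.log n)) atTop (𝓝 θ)) (b : ℕ) (hb : 1 ≤ b) :
    Tendsto (fun X : ℕ => MM (z (b * X)) / MM ⌊Real.log (X : ℝ) ^ t⌋₊) atTop (𝓝 (θ / t)) := by
  have hL : Tendsto (fun n : ℕ => Real.log (n : ℝ)) atTop atTop :=
    Real.tendsto_log_atTop.comp tendsto_natCast_atTop_atTop
  have hLL : Tendsto (fun n : ℕ => Real.log (Real.log (n : ℝ))) atTop atTop :=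
    Real.tendsto_log_atTop.comp hL
  have hbX : Tendsto (fun X : ℕ => b * X) atTop atTop := Filter.tendsto_id.const_mul_atTop' (by omega)
  have h1 := (MM_asym hθ hz).2.comp hbX
  -- `log log (b X) / log log X → 1`
  have h2 : Tendsto (fun X : ℕ => Real.log (Real.log ((b * X : ℕ) : ℝ)) / Real.log (Real.log (X : ℝ))) atTop (𝓝 1) := by
    have g1 : Tendsto (fun X : ℕ => Real.log (Real.log (X : ℝ) + Real.log b) - Real.log (Real.log (X : ℝ))) atTop (𝓝 0) :=
      (Real.tendsto_log_comp_add_sub_log (Real.log b)).comp hL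
    have g2 := (g1.mul hLL.inv_tendsto_atTop).const_add 1
    rw [mul_zero, add_zero] at g2
    refine g2.congr' ?_
    filter_upwards [hLL.eventually_gt_atTop 0, eventually_ge_atTop 1] with X hX hX1
    have e1 : Real.log ((b * X : ℕ) : ℝ) = Real.log X + Real.log b := by
      push_cast
      rw [Real.log_mul (by positivity) (by positivity), add_comm]
    rw [e1]
    simp only [Pi.inv_apply]
    field_simp
    ring
  -- the product at the level `(log X) ^ t`
  have hv : Tendsto (fun X : ℕ => ⌊Real.log (X : ℝ) ^ t⌋₊) atTop atTop :=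
    tendsto_nat_floor_atTop.comp ((tendsto_rpow_atTop ht).comp hL)
  have h3 : Tendsto (fun X : ℕ => MM ⌊Real.log (X : ℝ) ^ t⌋₊ / Real.log (⌊Real.log (X : ℝ) ^ t⌋₊ : ℝ)) atTop
      (𝓝 (Real.exp Real.eulerMascheroniConstant)) := MM_lim.comp hv
  have h4 : Tendsto (fun X : ℕ => Real.log (⌊Real.log (X : ℝ) ^ t⌋₊ : ℝ) / Real.log (Real.log (X : ℝ))) atTop (𝓝 t) := by
    have g1 : Tendsto (fun X : ℕ => (⌊Real.log (X : ℝ) ^ t⌋₊ : ℝ) / Real.log (X : ℝ) ^ t) atTop (𝓝 1) :=
      (tendsto_nat_floor_div_atTop (R := ℝ)).comp ((tendsto_rpow_atTop ht).comp hL)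
    have g2 := ((g1.log one_ne_zero).mul hLL.inv_tendsto_atTop)
    rw [mul_zero] at g2
    have g3 := g2.const_add t
    rw [add_zero] at g3
    refine g3.congr' ?_
    filter_upwards [hL.eventually_gt_atTop 1, hv.eventually_gt_atTop 0] with X hX hvX
    have e4 : (0 : ℝ) < ⌊Real.log (X : ℝ) ^ t⌋₊ := by exact_mod_cast hvX
    have e5 : 0 < Real.log (Real.log (X : ℝ)) := Real.log_pos hX
    rw [Real.log_div e4.ne' (Real.rpow_pos_of_pos (by linarith) _).ne', Real.log_rpow (by linarith)]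
    simp only [Pi.inv_apply]
    field_simp
    ring
  have h5 := (h1.mul h2).div (h3.mul h4) (mul_pos (Real.exp_pos _) ht).ne'
  have e : Real.exp Real.eulerMascheroniConstant * θ * 1 / (Real.exp Real.eulerMascheroniConstant * t) = θ / t := by
    have := Real.exp_pos Real.eulerMascheroniConstant
    field_simp
  rw [e] at h5
  refine h5.congr' ?_
  have hlv : Tendsto (fun X : ℕ => Real.log (⌊Real.log (X : ℝ) ^ t⌋₊ : ℝ)) atTop atTop :=
    Real.tendsto_log_atTop.comp (tendsto_natCast_atTop_atTop.comp hv)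
  filter_upwards [hLL.eventually_gt_atTop 0, (hLL.comp hbX).eventually_gt_atTop 0, hlv.eventually_gt_atTop 0] with X g1 g2 g3
  have g4 := MM_pos (z (b * X))
  have g5 := MM_pos ⌊Real.log (X : ℝ) ^ t⌋₊
  simp only [Function.comp, Pi.div_apply] at g2 ⊢
  field_simp

/-- the level `(log X) ^ t` is below `z X` -/
lemma level_le {z : ℕ → ℕ} {θ t : ℝ} (hθ : 0 < θ) (htθ : t < θ)
    (hz : Tendsto (fun n : ℕ => Real.log (z n) / Real.log (Real.log n)) atTop (𝓝 θ)) :
    ∀ᶠ X : ℕ in atTop, ⌊Real.log (X : ℝ) ^ t⌋₊ ≤ z X := by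
  have hL : Tendsto (fun n : ℕ => Real.log (n : ℝ)) atTop atTop :=
    Real.tendsto_log_atTop.comp tendsto_natCast_atTop_atTop
  filter_upwards [hz.eventually (lt_mem_nhds htθ), hL.eventually_gt_atTop 1,
    (MM_asym hθ hz).1.eventually_gt_atTop 0] with X h1 h2 h3
  have h4 : 0 < Real.log (Real.log (X : ℝ)) := Real.log_pos h2
  have h5 : (0 : ℝ) < z X := by exact_mod_cast h3
  have h6 : (0 : ℝ) < Real.log (X : ℝ) := by linarith
  rw [lt_div_iff₀ h4, ← Real.log_rpow h6] at h1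
  have h7 : Real.log (X : ℝ) ^ t < z X := (Real.log_lt_log_iff (Real.rpow_pos_of_pos h6 _) h5).1 h1
  have h8 := Nat.floor_le (Real.rpow_nonneg h6.le t)
  exact_mod_cast (h8.trans h7.le)

/-- **few survivors** -/
theorem irr_low {z : ℕ → ℕ} {θ : ℝ} (hθ : 0 < θ) (hθ1 : θ ≤ 1)
    (hz : Tendsto (fun n : ℕ => Real.log (z n) / Real.log (Real.log n)) atTop (𝓝 θ))
    {u : ℝ} (hu : 1 < u) (hom : eg * om u < 1) :
    ∃ a c : ℝ, θ / 2 * u ≤ a ∧ c < 1 ∧ ∀ᶠ X : ℕ in atTop, ∃ x : ℕ, X ≤ x ∧ x ≤ 2 * X ∧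
      (rc (z X) x ⌊Real.log (x : ℝ) ^ a⌋₊ : ℝ) * MM (z X) ≤ c * Real.log (X : ℝ) ^ a := by
  have hom0 : 0 < om u := by
    have := Pool.Agent.R529.BU.om_ge u hu.le
    linarith
  obtain ⟨W, hW⟩ : ∃ W : ℝ, W = eg * om u := ⟨_, rfl⟩
  have hW0 : 0 < W := by rw [hW]; exact mul_pos eg_pos hom0
  rw [← hW] at hom
  obtain ⟨t, ht⟩ : ∃ t : ℝ, t = θ * ((1 + W) / 2) := ⟨_, rfl⟩
  have ht0 : 0 < t := by rw [ht]; positivity
  have htθ : t < θ := by
    rw [ht]
    nlinarith
  have ht1 : t < 1 := by linarith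
  have hrat : θ / t = 2 / (1 + W) := by
    rw [ht]
    field_simp
  have hc : W * (θ / t) < 1 := by
    rw [hrat, mul_div_assoc', div_lt_one (by linarith)]
    linarith
  obtain ⟨c, hc1, hc2⟩ := exists_between hc
  refine ⟨t * u, c, ?_, hc2, ?_⟩
  · apply mul_le_mul_of_nonneg_right _ (by linarith)
    rw [ht]
    nlinarith
  have hL : Tendsto (fun n : ℕ => Real.log (n : ℝ)) atTop atTop :=
    Real.tendsto_log_atTop.comp tendsto_natCast_atTop_atTop
  have h1 := ((rho (c := 1) ht0 hu).comp hL).mul (MM_ratio hθ ht0 hz 1 le_rfl)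
  have h2 := h1.eventually (gt_mem_nhds (show Real.exp Real.eulerMascheroniConstant * om u * (θ / t) < c by
    have : Real.exp Real.eulerMascheroniConstant * om u = W := by rw [hW]; rfl
    rw [this]
    exact hc1))
  filter_upwards [h2, level_le hθ htθ hz, hL.eventually (prim_small ht1 (show (0 : ℝ) < 1 by norm_num)),
    hL.eventually_gt_atTop 1, eventually_ge_atTop 1] with X h2 h3 h4 h5 hX1
  have hX0 : (0 : ℝ) < X := by exact_mod_cast hX1
  rw [one_mul, Real.exp_log hX0] at h4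
  have h4' : primorial ⌊Real.log (X : ℝ) ^ t⌋₊ ≤ X := by exact_mod_cast h4
  set v := ⌊Real.log (X : ℝ) ^ t⌋₊ with hv
  set P := primorial v with hP
  have hP0 : 0 < P := primorial_pos v
  refine ⟨(X / P + 1) * P, ?_, ?_, ?_⟩
  · have := Nat.lt_div_mul_add (a := X) hP0
    nlinarith
  · have := Nat.div_mul_le_self X P
    nlinarith
  have hx2 : (X / P + 1) * P ≤ 2 * X := by
    have := Nat.div_mul_le_self X P
    nlinarith
  have hxpos : 0 < (X / P + 1) * P := by positivity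
  obtain ⟨x, hx⟩ : ∃ x : ℕ, x = (X / P + 1) * P := ⟨_, rfl⟩
  rw [← hx] at hx2 hxpos ⊢
  have hdvd : P ∣ x := by rw [hx]; exact dvd_mul_left _ _
  have hlx : Real.log (x : ℝ) ≤ Real.log (X : ℝ) + 1 := by
    have g1 : (x : ℝ) ≤ 2 * X := by exact_mod_cast hx2
    have g2 : (0 : ℝ) < x := by exact_mod_cast hxpos
    have g3 := Real.log_le_log g2 g1
    rw [Real.log_mul (by norm_num) hX0.ne'] at g3
    have := Real.log_two_lt_d9
    linarith
  have hlx0 : 0 ≤ Real.log (x : ℝ) := Real.log_natCast_nonneg x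
  have g1 : (rc (z X) x ⌊Real.log (x : ℝ) ^ (t * u)⌋₊ : ℝ) ≤
      ((Pool.Agent.R529.BU.RR ((Real.log (X : ℝ) + 1) ^ (t * u)) (v : ℝ)).card : ℝ) := by
    rw [← rc_period hdvd]
    have e1 : rc (z X) x ⌊Real.log (x : ℝ) ^ (t * u)⌋₊ ≤ rc v x ⌊Real.log (x : ℝ) ^ (t * u)⌋₊ := rc_anti h3
    have e2 : rc v x ⌊Real.log (x : ℝ) ^ (t * u)⌋₊ ≤ rc v x ⌊(Real.log (X : ℝ) + 1) ^ (t * u)⌋₊ :=
      rc_mono (Nat.floor_mono (Real.rpow_le_rpow hlx0 hlx (by positivity)))
    exact_mod_cast e1.trans e2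
  have hMz := MM_pos (z X)
  have hMv := MM_pos v
  have hLa : 0 < Real.log (X : ℝ) ^ (t * u) := Real.rpow_pos_of_pos (by linarith) _
  simp only [Function.comp, one_mul] at h2
  rw [← hv] at h2
  refine (mul_le_mul_of_nonneg_right g1 hMz.le).trans ?_
  have e : ((Pool.Agent.R529.BU.RR ((Real.log (X : ℝ) + 1) ^ (t * u)) (v : ℝ)).card : ℝ) * MM (z X) =
      (((Pool.Agent.R529.BU.RR ((Real.log (X : ℝ) + 1) ^ (t * u)) (v : ℝ)).card : ℝ) * MM v /
        Real.log (X : ℝ) ^ (t * u) * (MM (z X) / MM v)) * Real.log (X : ℝ) ^ (t * u) := by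
    field_simp
  rw [e]
  exact mul_le_mul_of_nonneg_right h2.le hLa.le

/-- few terms of a progression are divisible by `p` -/
lemma card_dvd_le {p P Kn k0 j : ℕ} (hp : p.Prime) (hpP : ¬ p ∣ P) :
    ((range Kn).filter (fun k => p ∣ (k0 + k) * P + j)).card ≤ Kn / p + 1 := by
  have hinj : Set.InjOn (fun k => k / p) ↑((range Kn).filter (fun k => p ∣ (k0 + k) * P + j)) := by
    intro k hk k' hk' h
    rw [mem_coe, mem_filter] at hk hk'
    have h1 : (k0 + k) * P + j ≡ (k0 + k') * P + j [MOD p] := by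
      rw [Nat.ModEq, (Nat.mod_eq_zero_of_dvd hk.2), Nat.mod_eq_zero_of_dvd hk'.2]
    have h2 : (k0 + k) * P ≡ (k0 + k') * P [MOD p] := Nat.ModEq.add_right_cancel' j h1
    have h3 : k0 + k ≡ k0 + k' [MOD p] :=
      Nat.ModEq.cancel_right_of_coprime ((Nat.Prime.coprime_iff_not_dvd hp).2 hpP) h2
    have h4 : k ≡ k' [MOD p] := Nat.ModEq.add_left_cancel' k0 h3
    have h5 := Nat.div_add_mod k p
    have h6 := Nat.div_add_mod k' p
    have h7 : k % p = k' % p := h4
    have h8 : k / p = k' / p := h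
    rw [← h5, ← h6, h7, h8]
  rw [← card_image_of_injOn hinj]
  refine (card_le_card (t := range (Kn / p + 1)) ?_).trans (by rw [card_range])
  intro q hq
  rw [mem_image] at hq
  obtain ⟨k, hk, rfl⟩ := hq
  rw [mem_filter, mem_range] at hk
  rw [mem_range]
  have := Nat.div_le_div_right (c := p) hk.1.le
  show k / p < _
  omega

/-- the mean value over the multiples of the modulus -/
lemma exists_many {v w k0 Kn U : ℕ} (hKn : 0 < Kn) :
    ∃ k < Kn, (rc v 0 U : ℝ) * (1 - ∑ p ∈ (Ioc v w).filter Nat.Prime, (1 / (p : ℝ) + 1 / Kn)) ≤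
      rc w ((k0 + k) * primorial v) U := by
  classical
  set P := primorial v with hP
  set F := (range U).filter (fun j => Free v (0 + j + 1)) with hF
  set Q := (Ioc v w).filter Nat.Prime with hQ
  have hFN : F.card = rc v 0 U := rfl
  have hKn' : (0 : ℝ) < Kn := by exact_mod_cast hKn
  have hcov : ∀ k, (F.card : ℝ) ≤ rc w ((k0 + k) * P) U +
      ∑ p ∈ Q, ((F.filter (fun j => p ∣ (k0 + k) * P + (j + 1))).card : ℝ) := by
    intro k
    have h1 : F ⊆ (range U).filter (fun j => Free w ((k0 + k) * P + j + 1)) ∪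
        Q.biUnion (fun p => F.filter (fun j => p ∣ (k0 + k) * P + (j + 1))) := by
      intro j hj
      have hj' := mem_filter.1 hj
      by_cases hf : Free w ((k0 + k) * P + j + 1)
      · exact mem_union_left _ (mem_filter.2 ⟨hj'.1, hf⟩)
      · apply mem_union_right
        unfold Free at hf
        push Not at hf
        obtain ⟨p, hp, hpd, hpw⟩ := hf
        have hfv : Free v ((k0 + k) * P + (j + 1)) := by
          rw [free_period (dvd_mul_left _ _)]
          have := hj'.2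
          rwa [zero_add] at this
        have hpv : v < p := hfv p hp (by rw [← add_assoc]; exact hpd)
        rw [mem_biUnion]
        refine ⟨p, mem_filter.2 ⟨mem_Ioc.2 ⟨hpv, hpw⟩, hp⟩, mem_filter.2 ⟨hj, ?_⟩⟩
        rw [← add_assoc]
        exact hpd
    have h2 := (card_le_card h1).trans ((card_union_le _ _).trans (Nat.add_le_add_left card_biUnion_le _))
    exact_mod_cast h2
  have hsum : ∑ k ∈ range Kn, (rc v 0 U : ℝ) * (1 - ∑ p ∈ Q, (1 / (p : ℝ) + 1 / Kn)) ≤
      ∑ k ∈ range Kn, (rc w ((k0 + k) * P) U : ℝ) := by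
    have h1 := sum_le_sum (fun k (_ : k ∈ range Kn) => hcov k)
    rw [sum_add_distrib, sum_const, card_range, nsmul_eq_mul] at h1
    have h2 : ∑ k ∈ range Kn, ∑ p ∈ Q, ((F.filter (fun j => p ∣ (k0 + k) * P + (j + 1))).card : ℝ) ≤
        ∑ p ∈ Q, (F.card : ℝ) * ((Kn : ℝ) / p + 1) := by
      rw [sum_comm]
      apply sum_le_sum
      intro p hp
      have hp' := mem_filter.1 hp
      have hpP : ¬ p ∣ P := by
        rw [hP]
        intro hd
        unfold primorial at hd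
        obtain ⟨q, hq, hpq⟩ := (Prime.dvd_finsetProd_iff hp'.2.prime _).1 hd
        rw [mem_filter, mem_range] at hq
        have := (Nat.prime_dvd_prime_iff_eq hp'.2 hq.2).1 hpq
        have h3 := (mem_Ioc.1 hp'.1).1
        omega
      have h3 : ∑ k ∈ range Kn, ((F.filter (fun j => p ∣ (k0 + k) * P + (j + 1))).card : ℝ) =
          ∑ j ∈ F, (((range Kn).filter (fun k => p ∣ (k0 + k) * P + (j + 1))).card : ℝ) := by
        simp only [card_filter]
        push_cast
        rw [sum_comm]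
      rw [h3]
      calc ∑ j ∈ F, (((range Kn).filter (fun k => p ∣ (k0 + k) * P + (j + 1))).card : ℝ) ≤
          ∑ j ∈ F, ((Kn : ℝ) / p + 1) := by
            apply sum_le_sum
            intro j _
            have h4 : (((range Kn).filter (fun k => p ∣ (k0 + k) * P + (j + 1))).card : ℝ) ≤ ((Kn / p + 1 : ℕ) : ℝ) := by
              exact_mod_cast card_dvd_le hp'.2 hpP
            refine h4.trans ?_
            push_cast
            have := Nat.cast_div_le (α := ℝ) (m := Kn) (n := p)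
            linarith
        _ = _ := by rw [sum_const, nsmul_eq_mul]
    rw [sum_const, card_range, nsmul_eq_mul]
    have h3 : ∑ p ∈ Q, (F.card : ℝ) * ((Kn : ℝ) / p + 1) = Kn * (F.card * ∑ p ∈ Q, (1 / (p : ℝ) + 1 / Kn)) := by
      rw [mul_sum, mul_sum]
      apply sum_congr rfl
      intro p _
      field_simp
    rw [h3] at h2
    rw [← hFN]
    nlinarith
  obtain ⟨k, hk, h⟩ := exists_le_of_sum_le ⟨0, mem_range.2 hKn⟩ hsum
  exact ⟨k, mem_range.1 hk, h⟩

/-- **many survivors** -/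
theorem irr_high {z : ℕ → ℕ} (hmono : Monotone z) {θ : ℝ} (hθ : 0 < θ) (hθ1 : θ ≤ 1)
    (hz : Tendsto (fun n : ℕ => Real.log (z n) / Real.log (Real.log n)) atTop (𝓝 θ))
    {u : ℝ} (hu : 1 < u) (hom : 1 < eg * om u) :
    ∃ a c : ℝ, θ / 2 * u ≤ a ∧ 1 < c ∧ ∀ᶠ X : ℕ in atTop, ∃ x : ℕ, X ≤ x ∧ x ≤ 2 * X ∧
      c * Real.log (X : ℝ) ^ a ≤ (rc (z (3 * X)) x ⌊Real.log (x : ℝ) ^ a⌋₊ : ℝ) * MM (z (3 * X)) := by
  obtain ⟨W, hW⟩ : ∃ W : ℝ, W = eg * om u := ⟨_, rfl⟩
  rw [← hW] at hom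
  obtain ⟨lam, hlam⟩ : ∃ lam : ℝ, lam = (W - 1) / (2 * W) := ⟨_, rfl⟩
  have hlam0 : 0 < lam := by rw [hlam]; apply div_pos <;> linarith
  have hlam1 : lam < 1 / 2 := by
    rw [hlam, div_lt_div_iff₀ (by linarith) (by norm_num)]
    linarith
  have hWl : W * (1 - lam) = (W + 1) / 2 := by
    rw [hlam]
    have : W ≠ 0 := by linarith
    field_simp
    ring
  obtain ⟨t, ht⟩ : ∃ t : ℝ, t = θ * Real.exp (-lam) := ⟨_, rfl⟩
  have hexp1 : Real.exp (-lam) < 1 := by
    rw [Real.exp_lt_one_iff]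
    linarith
  have hexp2 : 1 / 2 ≤ Real.exp (-lam) := by
    have := Real.add_one_le_exp (-lam)
    linarith
  have ht0 : 0 < t := by rw [ht]; positivity
  have htθ : t < θ := by rw [ht]; nlinarith
  have ht1 : t < 1 := by linarith
  have hrat : θ / t = Real.exp lam := by
    rw [ht, Real.exp_neg]
    have := Real.exp_pos lam
    field_simp
  obtain ⟨c, hc1, hc2⟩ := exists_between (show 1 < (W + 1) / 2 by linarith)
  refine ⟨t * u, c, ?_, hc1, ?_⟩
  · apply mul_le_mul_of_nonneg_right _ (by linarith)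
    rw [ht]
    nlinarith
  have hL : Tendsto (fun n : ℕ => Real.log (n : ℝ)) atTop atTop :=
    Real.tendsto_log_atTop.comp tendsto_natCast_atTop_atTop
  -- choose `η`
  obtain ⟨η, hη0, hη⟩ : ∃ η : ℝ, 0 < η ∧ c < (W - η) * (1 - lam - 2 * η) ∧ 0 < 1 - lam - 2 * η ∧ 0 < W - η := by
    have hcont : ContinuousAt (fun η : ℝ => (W - η) * (1 - lam - 2 * η)) 0 := by fun_prop
    have h0 : c < (fun η : ℝ => (W - η) * (1 - lam - 2 * η)) 0 := by
      simp only [sub_zero, mul_zero]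
      rw [hWl]
      exact hc2
    have h1 := hcont.eventually (lt_mem_nhds h0)
    obtain ⟨e, he, hball⟩ := Metric.eventually_nhds_iff.1 h1
    refine ⟨min (e / 2) (1 / 8), lt_min (by positivity) (by norm_num), ?_, ?_, ?_⟩
    · apply hball
      rw [Real.dist_eq, sub_zero, abs_of_pos (lt_min (by positivity) (by norm_num))]
      exact (min_le_left _ _).trans_lt (by linarith)
    · have := min_le_right (e / 2) (1 / 8 : ℝ)
      linarith
    · have := min_le_right (e / 2) (1 / 8 : ℝ)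
      linarith
  obtain ⟨hη1, hη2, hη3⟩ := hη
  have h1 := (rho (c := 0) ht0 hu).comp hL
  have e1 : Real.exp Real.eulerMascheroniConstant * om u = W := by rw [hW]; rfl
  rw [e1] at h1
  have h2 := MM_ratio hθ ht0 hz 3 (by norm_num)
  rw [hrat] at h2
  have h2' := h2.eventually (gt_mem_nhds (show Real.exp lam < Real.exp (lam + η) by
    apply Real.exp_lt_exp.2; linarith))
  have hk := (isLittleO_pow_exp_pos_mul_atTop (2 * ⌈θ⌉₊ + 2) (show (0 : ℝ) < 3 / 4 by norm_num)).def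
    (show 0 < η / 4 by positivity)
  filter_upwards [h1.eventually (lt_mem_nhds (show W - η < W by linarith)), h2', level_le hθ htθ hz,
    hL.eventually (prim_small ht1 (show (0 : ℝ) < 1 / 4 by norm_num)), hL.eventually hk,
    unif_facts hθ hz 0 one_pos le_rfl, hL.eventually_ge_atTop 8, eventually_ge_atTop 1]
    with X g1 g2 g3 g4 g5 g6 g7 hX1
  have hX0 : (0 : ℝ) < X := by exact_mod_cast hX1
  obtain ⟨v, hv⟩ : ∃ v, v = ⌊Real.log (X : ℝ) ^ t⌋₊ := ⟨_, rfl⟩
  obtain ⟨w, hw⟩ : ∃ w, w = z (3 * X) := ⟨_, rfl⟩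
  simp only [Function.comp, add_zero] at g1
  rw [← hv] at g1 g2 g3 g4
  rw [← hw] at g2 ⊢
  obtain ⟨P, hP⟩ : ∃ P, P = primorial v := ⟨_, rfl⟩
  have hP0 : 0 < P := by rw [hP]; exact primorial_pos v
  have hP0' : (0 : ℝ) < P := by exact_mod_cast hP0
  rw [← hP] at g4
  obtain ⟨L, hLd⟩ : ∃ L : ℝ, L = Real.log (X : ℝ) := ⟨_, rfl⟩
  rw [← hLd] at g1 g4 g5 g6 g7 ⊢
  have hXe : (X : ℝ) = Real.exp (3 / 4 * L) * Real.exp (1 / 4 * L) := by
    rw [← Real.exp_add, hLd]
    rw [show 3 / 4 * Real.log (X : ℝ) + 1 / 4 * Real.log X = Real.log X by ring, Real.exp_log hX0]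
  have hE : 4 ≤ Real.exp (3 / 4 * L) := by
    have := Real.add_one_le_exp (3 / 4 * L)
    linarith
  have hvw : v ≤ w := by rw [hw]; exact g3.trans (hmono (by omega))
  -- the number of rows
  have hKr : Real.exp (3 / 4 * L) / 2 ≤ (X : ℝ) / (2 * P) := by
    rw [le_div_iff₀ (by positivity), hXe]
    have h3 : (P : ℝ) ≤ Real.exp (1 / 4 * L) := g4
    have h4 := Real.exp_pos (3 / 4 * L)
    nlinarith
  obtain ⟨Kn, hKn⟩ : ∃ Kn, Kn = X / (2 * P) := ⟨_, rfl⟩
  have hKn1 : Real.exp (3 / 4 * L) / 4 ≤ (Kn : ℝ) := by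
    have h3 : (X : ℝ) / (2 * P) < (Kn : ℝ) + 1 := by
      have := Nat.lt_floor_add_one ((X : ℝ) / ((2 * P : ℕ) : ℝ))
      rw [Nat.floor_div_eq_div, ← hKn] at this
      push_cast at this
      exact this
    linarith
  have hKn0 : 0 < Kn := by
    have : (0 : ℝ) < Kn := by linarith
    exact_mod_cast this
  have hKn0' : (0 : ℝ) < Kn := by exact_mod_cast hKn0
  have h2P : 2 * P ≤ X := by
    have h3 : 0 < X / (2 * P) := by rw [← hKn]; exact hKn0
    exact (Nat.div_pos_iff.1 h3).2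
  obtain ⟨k, hk1, hk2⟩ := exists_many (v := v) (w := w) (k0 := X / P + 1) (Kn := Kn) (U := ⌊L ^ (t * u)⌋₊) hKn0
  rw [← hP] at hk2
  have hxe : (X / P + 1 + k) * P = X / P * P + P + k * P := by ring
  have hx1 : X ≤ (X / P + 1 + k) * P := by
    have := Nat.lt_div_mul_add (a := X) hP0
    rw [hxe]
    linarith [Nat.zero_le (k * P)]
  have hx2 : (X / P + 1 + k) * P ≤ 2 * X := by
    have h3 := Nat.div_mul_le_self X P
    have h4 := Nat.div_mul_le_self X (2 * P)
    rw [← hKn] at h4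
    have h5 : (k + 1) * P ≤ Kn * P := Nat.mul_le_mul_right P hk1
    have h6 : (k + 1) * P = k * P + P := by ring
    have h7 : Kn * (2 * P) = 2 * (Kn * P) := by ring
    rw [hxe]
    rw [h7] at h4
    rw [h6] at h5
    omega
  refine ⟨(X / P + 1 + k) * P, hx1, hx2, ?_⟩
  obtain ⟨x, hx⟩ : ∃ x, x = (X / P + 1 + k) * P := ⟨_, rfl⟩
  rw [← hx] at hk2 hx1 hx2 ⊢
  have hlx : L ≤ Real.log (x : ℝ) := by
    rw [hLd]
    exact Real.log_le_log hX0 (by exact_mod_cast hx1)
  have htu : 0 < t * u := by positivity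
  have hrc : (rc w x ⌊L ^ (t * u)⌋₊ : ℝ) ≤ (rc w x ⌊Real.log (x : ℝ) ^ (t * u)⌋₊ : ℝ) := by
    exact_mod_cast rc_mono (Nat.floor_mono (Real.rpow_le_rpow (by linarith) hlx htu.le))
  rw [rc_period (dvd_zero _)] at hk2
  obtain ⟨N, hN⟩ : ∃ N : ℝ, N = ((Pool.Agent.R529.BU.RR (L ^ (t * u)) (v : ℝ)).card : ℝ) := ⟨_, rfl⟩
  rw [← hN] at g1 hk2
  have hN0 : 0 ≤ N := hN ▸ Nat.cast_nonneg _
  have hMv := MM_pos v
  have hMw := MM_pos w
  have hLa : 0 < L ^ (t * u) := Real.rpow_pos_of_pos (by linarith) _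
  -- the sum over the primes
  have hS : ∑ p ∈ (Ioc v w).filter Nat.Prime, (1 / (p : ℝ) + 1 / Kn) ≤ lam + 2 * η := by
    rw [sum_add_distrib]
    have h3 := sum_inv_le hvw
    have h4 : Real.log (MM w / MM v) ≤ lam + η := by
      rw [Real.log_le_iff_le_exp (by positivity)]
      exact g2.le
    have h5 : ∑ _p ∈ (Ioc v w).filter Nat.Prime, (1 : ℝ) / Kn ≤ η := by
      rw [sum_const, nsmul_eq_mul]
      have h6 : (((Ioc v w).filter Nat.Prime).card : ℝ) ≤ w := by
        have : ((Ioc v w).filter Nat.Prime).card ≤ w := by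
          refine (card_filter_le _ _).trans ?_
          rw [Nat.card_Ioc]
          omega
        exact_mod_cast this
      have h7 : (w : ℝ) ≤ L ^ (2 * ⌈θ⌉₊ + 2) := by
        have := ((g6.2.2 (3 * X) (by omega) (by omega)).2.2.2.2.2)
        rw [← hw] at this
        linarith
      have h8 : L ^ (2 * ⌈θ⌉₊ + 2) ≤ η / 4 * Real.exp (3 / 4 * L) := by
        rw [Real.norm_of_nonneg (by positivity), Real.norm_of_nonneg (Real.exp_pos _).le] at g5
        exact g5
      rw [mul_one_div, div_le_iff₀ hKn0']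
      have h9 : η * (Real.exp (3 / 4 * L) / 4) ≤ η * Kn := mul_le_mul_of_nonneg_left hKn1 hη0.le
      linarith
    linarith
  have hvM : MM v ≤ MM w := by
    have h3 : MM v / MM w ≤ 1 := by
      have h4 := sum_inv_le hvw
      have h5 : 0 ≤ ∑ p ∈ (Ioc v w).filter Nat.Prime, (1 : ℝ) / p := sum_nonneg fun p _ => by positivity
      have h6 : 1 ≤ MM w / MM v := by
        by_contra hcon
        push Not at hcon
        have := Real.log_neg (by positivity) hcon
        linarith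
      rw [div_le_one hMw]
      rwa [le_div_iff₀ hMv, one_mul] at h6
    rwa [div_le_one hMw] at h3
  rw [lt_div_iff₀ hLa] at g1
  calc c * L ^ (t * u) ≤ ((W - η) * (1 - lam - 2 * η)) * L ^ (t * u) :=
        mul_le_mul_of_nonneg_right hη1.le hLa.le
    _ = ((W - η) * L ^ (t * u)) * (1 - lam - 2 * η) := by ring
    _ ≤ (N * MM v) * (1 - lam - 2 * η) := mul_le_mul_of_nonneg_right g1.le hη2.le
    _ = (N * (1 - lam - 2 * η)) * MM v := by ring
    _ ≤ (N * (1 - lam - 2 * η)) * MM w := mul_le_mul_of_nonneg_left hvM (by positivity)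
    _ ≤ (rc w x ⌊Real.log (x : ℝ) ^ (t * u)⌋₊ : ℝ) * MM w := by
        apply mul_le_mul_of_nonneg_right _ hMw.le
        refine le_trans ?_ (hk2.trans hrc)
        apply mul_le_mul_of_nonneg_left _ hN0
        linarith

end Pool.Agent.R301.GM
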