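import Mathlib
import Pool.Agent.H50.G.B.R301.RM.PowLog
set_option autoImplicit false
set_option linter.unusedSectionVars false

/-! # Monotonicity of the lower and upper limits in the exponent -/

open Finset Filter
open scoped Topology

namespace Pool.Agent.R301.GM

open Pool.Agent.R528.RM
open Pool.Agent.R301.RM (RR cntR_mono pigeon_lt pigeon_gt)

lemma mono_facts {s a δ : ℝ} (hs : 0 < s) (hsa : s < a) (hδ : 0 < δ) : ∀ᶠ x : ℝ in atTop,
    1 ≤ Real.log x ∧ Real.log x ^ a ≤ x ∧ (1 + δ) * Real.log x ^ s ≤ δ * Real.log x ^ a ∧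
      ∀ y, x ≤ y → y ≤ 2 * x →
        Real.log x ≤ Real.log y ∧ Real.log y ≤ (1 + δ) * Real.log x ∧
        Real.log x ^ s ≤ Real.log y ^ s ∧ Real.log y ^ s ≤ (1 + δ) * Real.log x ^ s := by
  have h1 : Tendsto (fun L : ℝ => (L + 1) ^ s / L ^ s) atTop (𝓝 1) := by
    have h1 : Tendsto (fun L : ℝ => 1 + 1 * L⁻¹) atTop (𝓝 (1 + 1 * 0)) :=
      (tendsto_inv_atTop_zero.const_mul 1).const_add 1
    rw [mul_zero, add_zero] at h1
    have h2 := h1.rpow_const (p := s) (Or.inl one_ne_zero)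
    rw [Real.one_rpow] at h2
    refine h2.congr' ?_
    filter_upwards [eventually_gt_atTop 0] with L hL
    rw [← Real.div_rpow (by linarith) hL.le]
    congr 1
    field_simp
  have h2 : ∀ᶠ x : ℝ in atTop, Real.log x ^ a ≤ x := by
    have := (isLittleO_log_rpow_rpow_atTop a (show (0 : ℝ) < 1 by norm_num)).def (show (0 : ℝ) < 1 by norm_num)
    filter_upwards [this, eventually_ge_atTop 1] with x hx hx1
    have hl := Real.log_nonneg hx1
    rw [Real.norm_of_nonneg (Real.rpow_nonneg hl _), Real.rpow_one, Real.norm_of_nonneg (by linarith)] at hx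
    linarith
  have h3 : ∀ᶠ x : ℝ in atTop, (1 + δ) / δ ≤ Real.log x ^ (a - s) :=
    ((tendsto_rpow_atTop (show 0 < a - s by linarith)).comp Real.tendsto_log_atTop).eventually_ge_atTop _
  filter_upwards [h2, h3, Real.tendsto_log_atTop.eventually_ge_atTop 1,
    Real.tendsto_log_atTop.eventually_ge_atTop (1 / δ),
    Real.tendsto_log_atTop.eventually (h1.eventually (gt_mem_nhds (show (1 : ℝ) < 1 + δ by linarith))),
    eventually_ge_atTop 1] with x h2 h3 h4 h5 h6 h7
  have hl0 : 0 < Real.log x := by linarith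
  refine ⟨h4, h2, ?_, ?_⟩
  · have h8 : Real.log x ^ a = Real.log x ^ s * Real.log x ^ (a - s) := by
      rw [← Real.rpow_add hl0]
      congr 1
      ring
    rw [h8]
    rw [div_le_iff₀ hδ] at h3
    have h9 : 0 < Real.log x ^ s := Real.rpow_pos_of_pos hl0 _
    calc (1 + δ) * Real.log x ^ s ≤ (Real.log x ^ (a - s) * δ) * Real.log x ^ s :=
          mul_le_mul_of_nonneg_right h3 h9.le
      _ = _ := by ring
  · intro y hy1 hy2
    have g1 : Real.log x ≤ Real.log y := Real.log_le_log (by linarith) hy1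
    have g2 : Real.log y ≤ Real.log (2 * x) := Real.log_le_log (by linarith) hy2
    rw [Real.log_mul (by norm_num) (by linarith)] at g2
    have g3 := Real.log_two_lt_d9
    have g4 : 1 ≤ δ * Real.log x := by
      rw [div_le_iff₀ hδ] at h5
      linarith
    rw [div_lt_iff₀ (Real.rpow_pos_of_pos hl0 _)] at h6
    refine ⟨g1, by linarith, Real.rpow_le_rpow hl0.le g1 hs.le, ?_⟩
    exact (Real.rpow_le_rpow (by linarith) (by linarith) hs.le).trans h6.le

/-- sparse long intervals give sparse short intervals -/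
lemma lower_exp {S : Set ℕ} {s a c c' : ℝ} (hs : 0 < s) (hsa : s < a) (hc : c < c')
    (h : ∃ᶠ x : ℕ in atTop, RR S a x < c) : ∃ᶠ x : ℝ in atTop, RR S s x < c' := by
  obtain ⟨δ, hδ0, hδ1, hδ⟩ : ∃ δ : ℝ, 0 < δ ∧ δ ≤ 1 / 2 ∧ c * ((1 + δ) ^ 2 / (1 - δ)) < c' := by
    have hcont : ContinuousAt (fun δ : ℝ => c * ((1 + δ) ^ 2 / (1 - δ))) 0 := by
      have : (1 : ℝ) - 0 ≠ 0 := by norm_num
      fun_prop (disch := assumption)
    have h0 : (fun δ : ℝ => c * ((1 + δ) ^ 2 / (1 - δ))) 0 < c' := by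
      norm_num
      exact hc
    have h1 := hcont.eventually (gt_mem_nhds h0)
    obtain ⟨e, he, hball⟩ := Metric.eventually_nhds_iff.1 h1
    refine ⟨min (e / 2) (1 / 2), lt_min (by positivity) (by norm_num), min_le_right _ _, ?_⟩
    apply hball
    rw [Real.dist_eq, sub_zero, abs_of_pos (lt_min (by positivity) (by norm_num))]
    exact (min_le_left _ _).trans_lt (by linarith)
  rw [frequently_atTop]
  intro b
  have h1 := h.and_eventually (tendsto_natCast_atTop_atTop.eventually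
    ((mono_facts hs hsa hδ0).and (eventually_ge_atTop b)))
  obtain ⟨n, h2, ⟨h3, h4, h5, h6⟩, h7⟩ := h1.exists
  obtain ⟨x, hx⟩ : ∃ x : ℝ, x = n := ⟨_, rfl⟩
  rw [← hx] at h2 h3 h4 h5 h6 h7
  obtain ⟨l, hl⟩ : ∃ l : ℝ, l = Real.log x := ⟨_, rfl⟩
  have hl0 : 0 < Real.log x := by linarith
  have hP : 0 < Real.log x ^ s := Real.rpow_pos_of_pos hl0 _
  obtain ⟨T, hT⟩ : ∃ T : ℝ, T = Real.log x ^ a := ⟨_, rfl⟩
  have hT0 : 0 < T := by rw [hT]; exact Real.rpow_pos_of_pos hl0 _
  have h1δ : 0 < 1 - δ := by linarith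
  unfold Pool.Agent.R301.RM.RR at h2
  rw [← hT] at h2 h4 h5
  have h2' : (cntR S x T : ℝ) < c * T / Real.log x := by
    rw [lt_div_iff₀ hl0]
    have : Real.log x / T * (cntR S x T : ℝ) = (cntR S x T : ℝ) * Real.log x / T := by ring
    rwa [this, div_lt_iff₀ hT0] at h2
  have hc0 : 0 < c := by
    have g : (0 : ℝ) ≤ Real.log x / T * (cntR S x T : ℝ) := by positivity
    linarith
  obtain ⟨h', hh'⟩ : ∃ h' : ℝ, h' = (1 + δ) * Real.log x ^ s := ⟨_, rfl⟩
  have hh0 : 0 < h' := by rw [hh']; positivity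
  rw [← hh'] at h5
  obtain ⟨K, hK⟩ : ∃ K : ℕ, K = ⌊T / h'⌋₊ := ⟨_, rfl⟩
  have hK1 : (K : ℝ) * h' ≤ T := by
    have := Nat.floor_le (show 0 ≤ T / h' by positivity)
    rwa [← hK, le_div_iff₀ hh0] at this
  have hK2 : (1 - δ) * T ≤ K * h' := by
    have g1 := Nat.lt_floor_add_one (T / h')
    rw [← hK, div_lt_iff₀ hh0] at g1
    linarith
  obtain ⟨i, hi, g1⟩ := pigeon_lt S x (c := c * h' / ((1 - δ) * Real.log x)) hh0.le K (by
    refine lt_of_le_of_lt (Nat.cast_le.2 (cntR_mono S x hK1)) (h2'.trans_le ?_)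
    have e : (K : ℝ) * (c * h' / ((1 - δ) * Real.log x)) = c * (K * h') / ((1 - δ) * Real.log x) := by ring
    rw [e, div_le_div_iff₀ hl0 (by positivity)]
    have := mul_le_mul_of_nonneg_left hK2 (show 0 ≤ c * Real.log x by positivity)
    nlinarith)
  have hi' : (i : ℝ) * h' ≤ T := by
    refine le_trans ?_ hK1
    exact mul_le_mul_of_nonneg_right (by exact_mod_cast hi.le) hh0.le
  have hih : 0 ≤ (i : ℝ) * h' := by positivity
  obtain ⟨f1, f2, f3, f4⟩ := h6 (x + i * h') (by linarith) (by linarith)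
  refine ⟨x + i * h', by linarith, ?_⟩
  obtain ⟨y, hy⟩ : ∃ y : ℝ, y = x + i * h' := ⟨_, rfl⟩
  rw [← hy] at g1 f1 f2 f3 f4 ⊢
  have hly : 0 < Real.log y := by linarith
  have hPy : 0 < Real.log y ^ s := Real.rpow_pos_of_pos hly _
  rw [← hh'] at f4
  have g2 : (cntR S y (Real.log y ^ s) : ℝ) < c * h' / ((1 - δ) * Real.log x) :=
    lt_of_le_of_lt (Nat.cast_le.2 (cntR_mono S y f4)) g1
  unfold Pool.Agent.R301.RM.RR
  calc Real.log y / Real.log y ^ s * cntR S y (Real.log y ^ s)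
      < Real.log y / Real.log y ^ s * (c * h' / ((1 - δ) * Real.log x)) :=
        mul_lt_mul_of_pos_left g2 (by positivity)
    _ = c * ((1 + δ) / (1 - δ)) * ((Real.log y / Real.log x) * (Real.log x ^ s / Real.log y ^ s)) := by
        rw [hh']
        field_simp
    _ ≤ c * ((1 + δ) / (1 - δ)) * ((1 + δ) * 1) := by
        have e1 : Real.log y / Real.log x ≤ 1 + δ := by
          rw [div_le_iff₀ hl0]
          exact f2
        have e2 : Real.log x ^ s / Real.log y ^ s ≤ 1 := by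
          rw [div_le_one hPy]
          exact f3
        have e3 : 0 ≤ Real.log x ^ s / Real.log y ^ s := by positivity
        apply mul_le_mul_of_nonneg_left _ (by positivity)
        exact mul_le_mul e1 e2 e3 (by linarith)
    _ = c * ((1 + δ) ^ 2 / (1 - δ)) := by ring
    _ < c' := hδ

/-- dense long intervals give dense short intervals -/
lemma upper_exp {S : Set ℕ} {s a c c' : ℝ} (hs : 0 < s) (hsa : s < a) (hc' : 0 < c') (hc : c' < c)
    (h : ∃ᶠ x : ℕ in atTop, c < RR S a x) : ∃ᶠ x : ℝ in atTop, c' < RR S s x := by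
  obtain ⟨δ, hδ0, hδ⟩ : ∃ δ : ℝ, 0 < δ ∧ c' < c / (1 + δ) ^ 2 := by
    have hcont : ContinuousAt (fun δ : ℝ => c / (1 + δ) ^ 2) 0 := by
      have : (1 + (0 : ℝ)) ^ 2 ≠ 0 := by norm_num
      fun_prop (disch := assumption)
    have h0 : c' < (fun δ : ℝ => c / (1 + δ) ^ 2) 0 := by
      norm_num
      exact hc
    have h1 := hcont.eventually (lt_mem_nhds h0)
    obtain ⟨e, he, hball⟩ := Metric.eventually_nhds_iff.1 h1
    refine ⟨e / 2, by positivity, ?_⟩
    apply hball
    rw [Real.dist_eq, sub_zero, abs_of_pos (by positivity)]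
    linarith
  rw [frequently_atTop]
  intro b
  have h1 := h.and_eventually (tendsto_natCast_atTop_atTop.eventually
    ((mono_facts hs hsa hδ0).and (eventually_ge_atTop b)))
  obtain ⟨n, h2, ⟨h3, h4, h5, h6⟩, h7⟩ := h1.exists
  obtain ⟨x, hx⟩ : ∃ x : ℝ, x = n := ⟨_, rfl⟩
  rw [← hx] at h2 h3 h4 h5 h6 h7
  have hl0 : 0 < Real.log x := by linarith
  have hc0 : 0 < c := by linarith
  obtain ⟨h', hh'⟩ : ∃ h' : ℝ, h' = Real.log x ^ s := ⟨_, rfl⟩
  have hP : 0 < h' := by rw [hh']; exact Real.rpow_pos_of_pos hl0 _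
  obtain ⟨T, hT⟩ : ∃ T : ℝ, T = Real.log x ^ a := ⟨_, rfl⟩
  have hT0 : 0 < T := by rw [hT]; exact Real.rpow_pos_of_pos hl0 _
  unfold Pool.Agent.R301.RM.RR at h2
  rw [← hT] at h2 h4 h5
  rw [← hh'] at h5 h6
  have h2' : c * T / Real.log x < (cntR S x T : ℝ) := by
    rw [div_lt_iff₀ hl0]
    have : Real.log x / T * (cntR S x T : ℝ) = (cntR S x T : ℝ) * Real.log x / T := by ring
    rwa [this, lt_div_iff₀ hT0] at h2
  obtain ⟨K, hK⟩ : ∃ K : ℕ, K = ⌈T / h'⌉₊ := ⟨_, rfl⟩
  have hK1 : T ≤ (K : ℝ) * h' := by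
    have := Nat.le_ceil (T / h')
    rwa [← hK, div_le_iff₀ hP] at this
  have hhT : h' ≤ δ * T := by
    have : 0 ≤ δ * h' := by positivity
    linarith
  have hK2 : K * h' ≤ (1 + δ) * T := by
    have g1 := Nat.ceil_lt_add_one (show 0 ≤ T / h' by positivity)
    rw [← hK, ← sub_lt_iff_lt_add, lt_div_iff₀ hP] at g1
    linarith
  obtain ⟨i, hi, g1⟩ := pigeon_gt S x (c := c * h' / ((1 + δ) * Real.log x)) hP.le K (by
    refine lt_of_lt_of_le ?_ (Nat.cast_le.2 (cntR_mono S x hK1))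
    refine lt_of_le_of_lt ?_ h2'
    have e : (K : ℝ) * (c * h' / ((1 + δ) * Real.log x)) = c * (K * h') / ((1 + δ) * Real.log x) := by ring
    rw [e, div_le_div_iff₀ (by positivity) hl0]
    have := mul_le_mul_of_nonneg_left hK2 (show 0 ≤ c * Real.log x by positivity)
    nlinarith)
  have hi' : (i : ℝ) * h' ≤ T := by
    rw [hK, Nat.lt_ceil, lt_div_iff₀ hP] at hi
    exact hi.le
  have hih : 0 ≤ (i : ℝ) * h' := by positivity
  obtain ⟨f1, f2, f3, f4⟩ := h6 (x + i * h') (by linarith) (by linarith)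
  refine ⟨x + i * h', by linarith, ?_⟩
  obtain ⟨y, hy⟩ : ∃ y : ℝ, y = x + i * h' := ⟨_, rfl⟩
  rw [← hy] at g1 f1 f2 f3 f4 ⊢
  have hly : 0 < Real.log y := by linarith
  have hPy : 0 < Real.log y ^ s := Real.rpow_pos_of_pos hly _
  have g2 : c * h' / ((1 + δ) * Real.log x) < (cntR S y (Real.log y ^ s) : ℝ) :=
    lt_of_lt_of_le g1 (Nat.cast_le.2 (cntR_mono S y f3))
  unfold Pool.Agent.R301.RM.RR
  calc c' < c / (1 + δ) ^ 2 := hδ
    _ = c / (1 + δ) * (1 * (1 / (1 + δ))) := by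
        field_simp
    _ ≤ c / (1 + δ) * ((Real.log y / Real.log x) * (h' / Real.log y ^ s)) := by
        have e1 : 1 ≤ Real.log y / Real.log x := by
          rw [one_le_div hl0]
          exact f1
        have e2 : 1 / (1 + δ) ≤ h' / Real.log y ^ s := by
          rw [div_le_div_iff₀ (by linarith) hPy]
          linarith
        apply mul_le_mul_of_nonneg_left _ (by positivity)
        exact mul_le_mul e1 e2 (by positivity) (by positivity)
    _ = Real.log y / Real.log y ^ s * (c * h' / ((1 + δ) * Real.log x)) := by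
        field_simp
    _ < Real.log y / Real.log y ^ s * cntR S y (Real.log y ^ s) :=
        mul_lt_mul_of_pos_left g2 (by positivity)

end Pool.Agent.R301.GM
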